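import Pool.Agent.WR3.StmtsA

set_option autoImplicit false

namespace Pool.Agent.WR3.H75

open Pool.Agent.WR3

theorem prd : PrdStmt := by
  intro l g hg hp
  have hl : 0 < 3 ^ l := Nat.pos_of_ne_zero (by positivity)
  -- part 2
  have h2 : ∀ z : ℕ, ∑ a ∈ Finset.Ioc z (z + 3 ^ l), g a = ∑ a ∈ Finset.Icc 1 (3 ^ l), g a := by
    intro z
    induction z with
    | zero =>
      rw [Nat.zero_add]
      rfl
    | succ z ih =>
      rw [← ih]
      have e1 : Finset.Ioc z (z + 3 ^ l + 1) = insert (z + 1) (Finset.Ioc (z + 1) (z + 1 + 3 ^ l)) := by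
        ext x
        simp only [Finset.mem_Ioc, Finset.mem_insert]
        omega
      have e2 : Finset.Ioc z (z + 3 ^ l + 1) = insert (z + 3 ^ l + 1) (Finset.Ioc z (z + 3 ^ l)) := by
        ext x
        simp only [Finset.mem_Ioc, Finset.mem_insert]
        omega
      have s1 : ∑ a ∈ Finset.Ioc z (z + 3 ^ l + 1), g a =
          g (z + 1) + ∑ a ∈ Finset.Ioc (z + 1) (z + 1 + 3 ^ l), g a := by
        rw [e1, Finset.sum_insert (by simp)]
      have s2 : ∑ a ∈ Finset.Ioc z (z + 3 ^ l + 1), g a =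
          g (z + 3 ^ l + 1) + ∑ a ∈ Finset.Ioc z (z + 3 ^ l), g a := by
        rw [e2, Finset.sum_insert (by simp)]
      have e3 : g (z + 3 ^ l + 1) = g (z + 1) := by
        rw [show z + 3 ^ l + 1 = z + 1 + 3 ^ l by ring]
        exact hp _ (Nat.succ_pos z)
      linarith
  refine ⟨?_, h2⟩
  intro Y hY
  set P := ∑ a ∈ Finset.Icc 1 (3 ^ l), g a with hP
  have hP0 : 0 ≤ P := Finset.sum_nonneg fun a _ => hg a
  -- sum over k periods
  have hk : ∀ k : ℕ, ∑ a ∈ Finset.Ioc 0 (k * 3 ^ l), g a = k * P := by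
    intro k
    induction k with
    | zero => simp
    | succ k ih =>
      have e : Finset.Ioc 0 ((k + 1) * 3 ^ l) =
          Finset.Ioc 0 (k * 3 ^ l) ∪ Finset.Ioc (k * 3 ^ l) (k * 3 ^ l + 3 ^ l) := by
        rw [Finset.Ioc_union_Ioc_eq_Ioc (Nat.zero_le _) (Nat.le_add_right _ _)]
        congr 1
        ring
      rw [e, Finset.sum_union, ih, h2 (k * 3 ^ l)]
      · push_cast; ring
      · rw [Finset.disjoint_left]
        intro x hx hx'
        simp only [Finset.mem_Ioc] at hx hx'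
        omega
  set k := ⌊Y⌋₊ / 3 ^ l + 1 with hkd
  have h3 : ⌊Y⌋₊ ≤ k * 3 ^ l := by
    have h8 := Nat.div_add_mod ⌊Y⌋₊ (3 ^ l)
    have h9 := Nat.mod_lt ⌊Y⌋₊ hl
    have h10 : k * 3 ^ l = 3 ^ l * (⌊Y⌋₊ / 3 ^ l) + 3 ^ l := by rw [hkd]; ring
    omega
  have h4 : (k : ℝ) ≤ Y / 3 ^ l + 1 := by
    rw [hkd]
    push_cast
    have h5 : ((⌊Y⌋₊ / 3 ^ l : ℕ) : ℝ) ≤ (⌊Y⌋₊ : ℝ) / ((3 ^ l : ℕ) : ℝ) := Nat.cast_div_le
    have h6 : (⌊Y⌋₊ : ℝ) ≤ Y := Nat.floor_le hY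
    have h7 : (⌊Y⌋₊ : ℝ) / ((3 ^ l : ℕ) : ℝ) ≤ Y / 3 ^ l := by
      push_cast
      exact div_le_div_of_nonneg_right h6 (by positivity)
    linarith
  calc ∑ a ∈ Finset.Icc 1 ⌊Y⌋₊, g a ≤ ∑ a ∈ Finset.Ioc 0 (k * 3 ^ l), g a := by
        refine Finset.sum_le_sum_of_subset_of_nonneg ?_ fun a _ _ => hg a
        intro x hx
        simp only [Finset.mem_Ioc, Finset.mem_Icc] at hx ⊢
        omega
    _ = k * P := hk k
    _ ≤ (Y / 3 ^ l + 1) * P := mul_le_mul_of_nonneg_right h4 hP0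

end Pool.Agent.WR3.H75
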